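import Pool.Agent.X156.EH.Polygon

/-!
# The order polytope of the face lattice of a polygon need not be Ehrhart-nonnegative

The order preserving maps from the face lattice of the `n`-gon to a chain are counted by traces of
powers of the matrix `#{e : i ≤ e, j ≤ e}`. For `n = 13` the linear coefficient of the Ehrhart
polynomial, extracted by Lagrange interpolation at `0, …, 28`, is `-298495711 / 35302608`.
-/

set_option autoImplicit false

open Finset Polynomial

namespace Pool.Agent.Results.MP_a14af5_co.NegativeCoefficient

open Pool.Agent.X156.EH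

/-- `p` is the Ehrhart polynomial of the order polytope of `le`: `p(t)` is the number of lattice
points of the `t`-th dilate for all integers `t ≥ 0`. -/
def IsEhrhart {P : Type} (le : P → P → Prop) (p : ℚ[X]) : Prop :=
  ∀ t : ℕ, p.eval (t : ℚ) = (latticePoints le t : ℚ)

/-- the values of `TT 13` -/
def tab : List ℤ := [0, 1, 271443, 1385407029, 874569107071, 154424192534978, 11590981980134136,
  471109005712845073, 12073893516637797647, 216054227528911051598, 2899588931289770319928,
  30747252105854418602807, 267900870986039891665533, 1976658261038065237688965,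
  12646583259151935165028659, 71505544338055517905383002, 362852466483982941465664294,
  1673644967862052696066138463, 7091534775916075003484209649, 27850704697432295249191815709,
  102151810477267331847970867095, 352204279293140920190902505756,
  1147947037059968833062938517298, 3554264799119307289506871036659,
  10498698066409011044245276217901, 29697044023575712453995735900724,
  80710316446302004065351530568318, 211382155607852560741336416052863,
  534907644994676627454203692327477, 1310960487246736777485104974336647]

/-- the weights -/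
def wt : List ℤ := [-315404588903, 2248776129600, -15179238874800, 87702269054400,
  -411104386192500, 1578640842979200, -5042880470628000, 13584902492304000, -31202822912010750,
  61635205752120000, -105396201836125200, 156787738268616000, -203606299001605500,
  231316032001824000, -230135848165080000, 200473894401580800, -152704724251204125,
  101450889467928000, -58553445464514000, 29195623777320000, -12481129164804300,
  4528300830768000, -1375331037444000, 343182791952000, -68517397698750, 10524272286528,
  -1167633759600, 83288004800, -2868336900]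

set_option maxRecDepth 100000 in
theorem tab_eq : ∀ k ∈ range 30, (TT 13 k : ℤ) = tab.getD k 0 := by
  decide +kernel

set_option maxRecDepth 100000 in
theorem wt_eq : ∀ j ∈ range 29, ∑ t ∈ range 29, wt.getD t 0 * (t : ℤ) ^ j =
    if j = 1 then 80313433200 else 0 := by
  decide +kernel

/-- Lagrange interpolation -/
theorem coeff_one {p : ℚ[X]} (hp : p.natDegree ≤ 28) :
    80313433200 * p.coeff 1 = ∑ t ∈ range 29, ((wt.getD t 0 : ℤ) : ℚ) * p.eval (t : ℚ) := by
  have h1 : ∀ t : ℕ, p.eval (t : ℚ) = ∑ j ∈ range 29, p.coeff j * (t : ℚ) ^ j := fun t => by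
    rw [eval_eq_sum_range' (n := 29) (by omega)]
  simp only [h1, mul_sum]
  rw [sum_comm]
  have h2 : ∀ j ∈ range 29, ∑ t ∈ range 29, ((wt.getD t 0 : ℤ) : ℚ) *
      (p.coeff j * (t : ℚ) ^ j) = p.coeff j * (if j = 1 then 80313433200 else 0) := by
    intro j hj
    have h3 := wt_eq j hj
    have h4 : ∑ t ∈ range 29, ((wt.getD t 0 : ℤ) : ℚ) * (t : ℚ) ^ j =
        (if j = 1 then 80313433200 else 0) := by exact_mod_cast h3
    rw [← h4, mul_sum]
    apply sum_congr rfl
    intro t _
    ring
  rw [sum_congr rfl h2, sum_eq_single 1]
  · simp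
    ring
  · intro j _ hj
    simp [hj]
  · intro h
    exact absurd (mem_range.2 (by norm_num)) h

set_option maxRecDepth 100000 in
theorem neg : ∑ t ∈ range 29, wt.getD t 0 * (∑ a ∈ range (t + 1), ∑ b ∈ range (t + 1),
    if a ≤ b then tab.getD (b - a + 1) 0 else 0) < 0 := by
  decide +kernel

/-- **Negative answer to Q1.** For some `n ≥ 3` (namely `n = 13`) the Ehrhart polynomial of the order
polytope of the face lattice of the `n`-gon has a negative coefficient. -/
theorem result : ∃ n : ℕ, 3 ≤ n ∧ ∃ p : ℚ[X], IsEhrhart (incl n) p ∧ ∃ i : ℕ, p.coeff i < 0 := by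
  classical
  refine ⟨13, by norm_num, ?_⟩
  obtain ⟨p, hdeg, hp⟩ := exists_poly (incl 13)
  have hE : IsEhrhart (incl 13) (p.comp (X + 1)) := fun t => by
    rw [eval_comp, eval_add, eval_X, eval_one, latticePoints_eq, ← hp]
    push_cast
    rfl
  refine ⟨p.comp (X + 1), hE, 1, ?_⟩
  have hdeg' : (p.comp (X + 1)).natDegree ≤ 28 := by
    rw [natDegree_comp]
    have h1 : (X + 1 : ℚ[X]).natDegree = 1 := natDegree_X_add_C 1
    rw [h1, mul_one]
    exact hdeg
  have h := coeff_one hdeg'
  have h2 : ∑ t ∈ range 29, ((wt.getD t 0 : ℤ) : ℚ) * (p.comp (X + 1)).eval (t : ℚ) =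
      ((∑ t ∈ range 29, wt.getD t 0 * (∑ a ∈ range (t + 1), ∑ b ∈ range (t + 1),
        if a ≤ b then tab.getD (b - a + 1) 0 else 0) : ℤ) : ℚ) := by
    rw [Int.cast_sum]
    apply sum_congr rfl
    intro t ht
    rw [mem_range] at ht
    rw [hE t, latticePoints_eq, card_maps_incl, Int.cast_mul]
    congr 1
    have h3 : ((∑ a : Fin (t + 1), ∑ b : Fin (t + 1),
        if (a : ℕ) ≤ b then TT (12 + 1) ((b : ℕ) - a + 1) else 0 : ℕ) : ℤ) =
        ∑ a ∈ range (t + 1), ∑ b ∈ range (t + 1),
          if a ≤ b then tab.getD (b - a + 1) 0 else 0 := by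
      rw [← Fin.sum_univ_eq_sum_range (fun a => ∑ b ∈ range (t + 1),
        if a ≤ b then tab.getD (b - a + 1) 0 else 0)]
      push_cast
      apply sum_congr rfl
      intro a _
      rw [← Fin.sum_univ_eq_sum_range (fun b => if (a : ℕ) ≤ b then tab.getD (b - a + 1) 0 else 0)]
      apply sum_congr rfl
      intro b _
      split_ifs with hab
      · apply tab_eq
        rw [mem_range]
        have := b.2
        omega
      · rfl
    exact_mod_cast h3
  rw [h2] at h
  have h5 : ((∑ t ∈ range 29, wt.getD t 0 * (∑ a ∈ range (t + 1), ∑ b ∈ range (t + 1),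
        if a ≤ b then tab.getD (b - a + 1) 0 else 0) : ℤ) : ℚ) < 0 := by
    exact_mod_cast neg
  rw [← h] at h5
  by_contra hcon
  rw [not_lt] at hcon
  have := mul_nonneg (show (0 : ℚ) ≤ 80313433200 by norm_num) hcon
  linarith

end Pool.Agent.Results.MP_a14af5_co.NegativeCoefficient
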